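import Pool.Agent.Helper81.RT.Lower
import Pool.Agent.Helper81.RT.Upper
import Pool.Agent.Helper81.RT.TwoTape

/-!
# The question for machines with one work tape (MP_eaa19d_lc)

The lamplighter group is real-time with one work tape, its free product with any nontrivial group is not, and its free
product with any finite group is real-time with two work tapes.
-/

set_option autoImplicit false

namespace Pool.Agent.Results.MP_eaa19d_lc.OneWorkTape

open Pool.Agent.Helper81.RT

/-- The lamplighter group is real-time with one work tape; no free product of a group containing the lamplighter
group with a nontrivial group is real-time with one work tape; the free product of the lamplighter group with any finite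
group is real-time with two work tapes. -/
theorem result :
    RealTimeGroupK 1 Lamplighter ∧
    (∀ (G H : Type) [Group G] [Group H] [Nontrivial H] (φ : Lamplighter →* G), Function.Injective φ →
      ¬ RealTimeGroupK 1 (Monoid.Coprod G H)) ∧
    (∀ (H : Type) [Group H] [Finite H], RealTimeGroupK 2 (Monoid.Coprod Lamplighter H)) := by
  refine ⟨lamplighter_one, ?_, ?_⟩
  · intro G H _ _ _ φ hφ hRT
    obtain ⟨α, -, f, hf, hRT⟩ := hRT
    obtain ⟨h, hh⟩ := exists_ne (1 : H)
    obtain ⟨n, m, q0, F, δ, hδ, hL⟩ := simple_of_realTime hRT
    exact lower_core φ hφ hh f hf n m q0 F δ hδ hL
  · intro H _ _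
    exact coprod_two H

end Pool.Agent.Results.MP_eaa19d_lc.OneWorkTape
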