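import Mathlib
import Pool.Agent.Helper81.RT.GPFinal
import Pool.Agent.Helper81.RT.Coprods
import Pool.Agent.Helper22.EA.AmalgG
import Pool.Agent.Helper22.EA.HnnG
import Pool.Agent.Helper22.EA.FinQuot

/-!
# Closure properties of the tidy real-time groups (MP_eaa19d_lc)

Free products of groups which are built from tidy real-time groups by graph products over finite graphs, amalgamated
products over finite subgroups, HNN extensions with finite associated subgroups, quotients by finite normal subgroups
and finitely generated overgroups of finite index of subgroups are real-time.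

Authors: helper22, helper81.
-/

set_option autoImplicit false

namespace Pool.Agent.Results.MP_eaa19d_lc.TidyClosure

open Pool.Agent.Helper81.RT
open Pool.Agent.Helper22.EA (GraphProduct tidy_pushout tidy_hnn tidy_quotient)

/-- The groups built from tidy real-time groups by the listed constructions. -/
inductive Built : (G : Type) → Group G → Prop
  /-- tidy real-time groups -/
  | tidy (G : Type) [hG : Group G] (h : TidyGroup G) : Built G hG
  /-- graph products over finite graphs -/
  | graphProduct (V : Type) [Finite V] (Γ : SimpleGraph V) (A : V → Type) [hA : ∀ v, Group (A v)]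
      (h : ∀ v, Built (A v) (hA v)) : Built (GraphProduct Γ A) inferInstance
  /-- amalgamated products of finitely many groups over a common finite subgroup -/
  | amalgam (ι H : Type) [Finite ι] [Nonempty ι] [Group H] [Finite H] (A : ι → Type)
      [hA : ∀ i, Group (A i)] (φ : ∀ i, H →* A i) (hφ : ∀ i, Function.Injective (φ i))
      (h : ∀ i, Built (A i) (hA i)) : Built (Monoid.PushoutI φ) inferInstance
  /-- HNN extensions with finite associated subgroups -/
  | hnn (A : Type) [hA : Group A] (B C : Subgroup A) [Finite B] (φ : B ≃* C) (h : Built A hA) :
      Built (HNNExtension A B C φ) inferInstance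
  /-- quotients by finite normal subgroups -/
  | quotient (A : Type) [hA : Group A] (N : Subgroup A) [N.Normal] [Finite N] (h : Built A hA) :
      Built (A ⧸ N) inferInstance
  /-- finitely generated groups with a subgroup of finite index which embeds in a built group -/
  | virt (A G : Type) [hA : Group A] [hG : Group G] [Group.FG G] (K : Subgroup G) [K.FiniteIndex]
      (ψ : K →* A) (hψ : Function.Injective ψ) (h : Built A hA) : Built G hG

/-- Virtual embeddings in tidy groups. -/
theorem tidy_virt {A G : Type} [Group A] [Group G] [Group.FG G] (K : Subgroup G) [K.FiniteIndex]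
    (ψ : K →* A) (hψ : Function.Injective ψ) (h : TidyGroup A) : TidyGroup G := by
  let o : A →* GraphProduct (⊥ : SimpleGraph Unit) (fun _ => A) :=
    GraphProduct.of (⊥ : SimpleGraph Unit) (fun _ : Unit => A) ()
  let r : GraphProduct (⊥ : SimpleGraph Unit) (fun _ : Unit => A) →* A :=
    gpLift (fun _ => MonoidHom.id A) (fun u v hadj => absurd hadj (by simp))
  have ho : Function.Injective o := by
    intro a b hab
    have h1 : ∀ a, r (o a) = a := fun a => gpLift_of _ _ _ _
    rw [← h1 a, hab, h1 b]
  exact (graphProduct_stack (⊥ : SimpleGraph Unit) (fun _ => A) (fun _ => h)).overgroup K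
    (o.comp ψ) (ho.comp hψ)

/-- Tidy groups are finitely generated. -/
theorem fg_of_tidy {G : Type} [Group G] (h : TidyGroup G) : Group.FG G := by
  obtain ⟨k, α, hα, f, hf, -⟩ := h
  exact ⟨⟨(Set.finite_range f).toFinset, by simpa using hf⟩⟩

/-- Free products of tidy groups are tidy. -/
theorem tidy_coprod {G H : Type} [Group G] [Group H] (hG : TidyGroup G) (hH : TidyGroup H) :
    TidyGroup (Monoid.Coprod G H) := by
  have hF : ∀ b, TidyGroup (Fam G H b) := by
    rintro (_ | _)
    · exact hH
    · exact hG
  have h1 : Group.FG G := fg_of_tidy hG
  have h2 : Group.FG H := fg_of_tidy hH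
  have : Group.FG (Monoid.Coprod G H) := coprod_fg G H
  exact (graphProduct_stack (⊥ : SimpleGraph Bool) (Fam G H) hF).overgroup ⊤
      ((embFam G H).comp (Subgroup.subtype ⊤)) ((embFam_injective G H).comp Subtype.val_injective)

theorem tidy_graphProduct {V : Type} [Finite V] (Γ : SimpleGraph V) (A : V → Type)
    [∀ v, Group (A v)] (h : ∀ v, TidyGroup (A v)) : TidyGroup (GraphProduct Γ A) := by
  have hs := graphProduct_stack Γ A h
  have hfg : Group.FG (GraphProduct Γ A) := by
    obtain ⟨α, hα, f, hf, -⟩ := hs
    exact ⟨⟨(Set.finite_range f).toFinset, by simpa using hf⟩⟩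
  exact hs.overgroup ⊤ (Subgroup.subtype ⊤) Subtype.val_injective

theorem tidy_of_built (G : Type) (hG : Group G) (h : Built G hG) : TidyGroup G := by
  induction h with
  | tidy G h => exact h
  | graphProduct V Γ A h ih => exact tidy_graphProduct Γ A ih
  | amalgam ι H A φ hφ h ih => exact tidy_pushout A φ hφ ih
  | hnn A B C φ h ih => exact tidy_hnn φ ih
  | quotient A N h ih => exact tidy_quotient N ih
  | virt A G K ψ hψ h ih => exact tidy_virt K ψ hψ ih

/-- Let `G` and `H` be built from tidy real-time groups by graph products over finite graphs, amalgamated products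
over finite subgroups, HNN extensions with finite associated subgroups, quotients by finite normal subgroups and
passage to finitely generated groups which virtually embed.  Then `G`, `H` and their free product are tidy real-time
groups and real-time groups. -/
theorem result (G H : Type) [hG : Group G] [hH : Group H] (hBG : Built G hG) (hBH : Built H hH) :
    TidyGroup G ∧ TidyGroup H ∧ TidyGroup (Monoid.Coprod G H) ∧
      (∃ k, RealTimeGroupK k G) ∧ (∃ k, RealTimeGroupK k H) ∧
      (∃ k, RealTimeGroupK k (Monoid.Coprod G H)) := by
  have h1 := tidy_of_built G hG hBG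
  have h2 := tidy_of_built H hH hBH
  have h3 := tidy_coprod h1 h2
  exact ⟨h1, h2, h3, h1.realTime, h2.realTime, h3.realTime⟩

end Pool.Agent.Results.MP_eaa19d_lc.TidyClosure
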